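import Pool.Agent.H6.FIB.TargetsG
import Pool.Agent.H6.FI.Lib

/-!
# The conditions on the characters for `A₅` and `S₅` (row CH5 of fib_modules)
-/

set_option autoImplicit false

open FI AMc AMt
open scoped Classical ComplexConjugate

namespace Pool.Agent.H7.FIB

/-- lower bound of a sum over a finite set -/
theorem ch5_lb {α : Type} (s : Set α) (hs : s.Finite) (f : α → ℝ) (c : ℝ)
    (h : ∀ x ∈ s, c ≤ f x) : c * s.ncard ≤ ∑ᶠ x ∈ s, f x := by
  rw [finsum_mem_eq_finite_toFinset_sum f hs, Set.ncard_eq_toFinset_card s hs]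
  have h1 := Finset.card_nsmul_le_sum hs.toFinset f c (fun x hx => h x (by simpa using hx))
  rw [nsmul_eq_mul] at h1
  linarith [mul_comm c (hs.toFinset.card : ℝ)]

theorem ch5_A5 : Nat.card A5 = 60 := by
  have h := two_mul_nat_card_alternatingGroup (α := Fin 5)
  rw [Nat.card_perm, Nat.card_eq_fintype_card (α := Fin 5), Fintype.card_fin] at h
  have h5 : Nat.factorial 5 = 120 := rfl
  have h6 : 2 * Nat.card A5 = 120 := h.trans h5
  omega

theorem ch5_map {A : Type} [Group A] (f : A →* Equiv.Perm (Fin 5)) (h : A5 ≤ f.range) :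
    (A5.comap f).map f = A5 := by
  rw [Subgroup.map_comap_eq, inf_eq_right.mpr h]

theorem ch5_S {A : Type} [Group A] (f : A →* Equiv.Perm (Fin 5))
    (hf : Function.Injective f) (h : A5 ≤ f.range) : Nat.card (A5.comap f) = 60 := by
  have h1 := Nat.card_congr ((A5.comap f).equivMapOfInjective f hf).toEquiv
  rw [h1, ch5_map f h, ch5_A5]

theorem ch5_cls (b : Equiv.Perm (Fin 5) → ℂ) (hb : b ∈ Irr (Equiv.Perm (Fin 5)))
    (s : Equiv.Perm (Fin 5)) : cj s (rsf A5 b) = rsf A5 b := by
  funext x
  have hcf := ((FI.Lib.lA3 (Equiv.Perm (Fin 5))).2.1 b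
    ((FI.Lib.lA3 (Equiv.Perm (Fin 5))).1 b hb).1).1
  simp only [cj, rsf]
  have h1 : s * x * s⁻¹ ∈ A5 ↔ x ∈ A5 := by
    constructor
    · intro h
      have h2 := (inferInstance : A5.Normal).conj_mem _ h s⁻¹
      have h3 : s⁻¹ * (s * x * s⁻¹) * s⁻¹⁻¹ = x := by group
      rwa [h3] at h2
    · intro h
      exact (inferInstance : A5.Normal).conj_mem _ h s
  by_cases hx : x ∈ A5
  · rw [if_pos hx, if_pos (h1.mpr hx), hcf]
  · rw [if_neg hx, if_neg (fun h => hx (h1.mp h))]

theorem ch5_cls1 (s : Equiv.Perm (Fin 5)) :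
    cj s (rsf A5 (fun _ => (1 : ℂ))) = rsf A5 (fun _ => (1 : ℂ)) := by
  funext x
  simp only [cj, rsf]
  have h1 : s * x * s⁻¹ ∈ A5 ↔ x ∈ A5 := by
    constructor
    · intro h
      have h2 := (inferInstance : A5.Normal).conj_mem _ h s⁻¹
      have h3 : s⁻¹ * (s * x * s⁻¹) * s⁻¹⁻¹ = x := by group
      rwa [h3] at h2
    · intro h
      exact (inferInstance : A5.Normal).conj_mem _ h s
  by_cases hx : x ∈ A5
  · rw [if_pos hx, if_pos (h1.mpr hx)]
  · rw [if_neg hx, if_neg (fun h => hx (h1.mp h))]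

theorem pf_CH5 (h1 : T_SOL) (h2 : T_ALS) (h3 : T_AL5) (h4 : T_SDP) (h5 : T_NE) (h6 : T_AEC)
    (h7 : T_AEX) (h8 : T_EXM) (h9 : T_NIV) (h10 : T_A5T) (h11 : T_IMN) (h12 : T_IOA)
    (h13 : T_ABL) (h14 : T_CLF) : T_CH5 := by
  intro A _ _ f hf hA5
  obtain ⟨hNE1, hNE2, hNE3⟩ := h5
  have hmapS := ch5_map f hA5
  have hcardS := ch5_S f hf hA5
  constructor
  · -- the average degree
    intro M _ _ π hrange hker ν hν
    have hft : Fintype M := Fintype.ofFinite M
    have hAE : AE π.ker (⊤ : Subgroup M) π.ker (f.comp π) := by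
      refine ⟨?_, inferInstance, ?_, ?_, ?_⟩
      · intro z hz g
        exact (Subgroup.mem_center_iff.mp (hker hz) g).symm
      · intro g
        rw [MonoidHom.mem_ker, MonoidHom.comp_apply]
        constructor
        · intro h; rw [h, map_one]
        · intro h; apply hf; rw [h, map_one]
      · exact top_inf_eq _
      · rw [← Subgroup.map_map, ← MonoidHom.range_eq_map, hrange, hmapS]
    obtain ⟨i1, i2, i3, i4, i5⟩ := h12 M π.ker ν hν
    have hkk : kk (⊤ : Subgroup M) (ext0 π.ker ν) = (IrrO π.ker ν).ncard := by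
      rw [kk, ← i2]
    have hdd : dd (⊤ : Subgroup M) (ext0 π.ker ν) = ∑ᶠ χ ∈ IrrO π.ker ν, (χ 1).re := by
      rw [dd, ← i2]
    have key : 16 / 5 ≤ acd π.ker ν := by
      rcases h7 M π.ker ⊤ π.ker (f.comp π) hAE _ i1 with ⟨μ, hμ, hμ1, hμo, -⟩ | ⟨hk, hd, -⟩
      · obtain ⟨hk, hd⟩ := h8 M π.ker ⊤ π.ker (f.comp π) hAE _ i1 μ hμ hμ1 hμo
        rw [hkk] at hk
        rw [hdd] at hd
        rw [hk, hd] at i4
        push_cast at i4
        linarith
      · rw [hkk] at hk
        rw [hdd] at hd
        rw [hk, hd] at i4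
        push_cast at i4
        linarith
    rw [hcardS]
    exact le_trans (by exact_mod_cast hNE3) key
  · -- the automorphism
    intro hidx M _ _ π hrange hker ν hν σ a ha hσz hσ
    have hAl := h3 A f hf hA5
    have hprime := hAl.idx.resolve_left hidx
    have hP120 : Nat.card (Equiv.Perm (Fin 5)) = 120 := by
      rw [Nat.card_perm, Nat.card_eq_fintype_card (α := Fin 5), Fintype.card_fin]; rfl
    have hle : Nat.card A ≤ 120 := by
      rw [← hP120]; exact Nat.card_le_card_of_injective f hf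
    have hmul := Subgroup.card_mul_index (A5.comap f)
    rw [hcardS] at hmul
    have hidx2 : (A5.comap f).index = 2 := by
      have := hprime.two_le
      omega
    have hcardA : Nat.card A = 120 := by rw [← hmul, hidx2]
    have hsurj : Function.Surjective f :=
      ((Nat.bijective_iff_injective_and_card f).mpr ⟨hf, by rw [hcardA, hP120]⟩).surjective
    obtain ⟨Γ, hΓ, hFΓ, j, t, δ0, hj, hδj, hδt, htj, hAG, hgen⟩ :=
      h4 A (A5.comap f) hAl hprime M π hrange hker σ a ha hσz hσ
    have hft : Fintype M := Fintype.ofFinite M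
    obtain ⟨k1, k2, k3, k4⟩ := FI.Lib.lK1 M Γ j hj
    have hinj2 : Function.Injective (j.comp π.ker.subtype) := hj.comp (Subgroup.subtype_injective _)
    have hrange2 : (j.comp π.ker.subtype).range = π.ker.map j := by
      rw [MonoidHom.range_comp, Subgroup.range_subtype]
    have hftk : Fintype π.ker := Fintype.ofFinite _
    obtain ⟨l1, l2, l3, l4⟩ := FI.Lib.lK1 π.ker Γ (j.comp π.ker.subtype) hinj2
    obtain ⟨ν', hν'd⟩ : ∃ ν' : Γ → ℂ, ν' = extj (j.comp π.ker.subtype) ν := ⟨_, rfl⟩
    have hν' : ν' ∈ IrrS (π.ker.map j) := by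
      rw [← hrange2, hν'd]; exact (l2 ν).1 hν
    have hAE : AE (π.ker.map j) j.range δ0.ker (f.comp δ0) := by
      refine ⟨hAG.cen, hAG.nor, ?_, hAG.inf, ?_⟩
      · intro g
        rw [MonoidHom.mem_ker, MonoidHom.comp_apply]
        constructor
        · intro h; rw [h, map_one]
        · intro h; apply hf; rw [h, map_one]
      · rw [← Subgroup.map_map, hAG.map, hmapS]
    have hsurj2 : Function.Surjective (f.comp δ0) := hsurj.comp hAG.sur
    -- the dictionary
    have hzero : ∀ (χ : M → ℂ) (g : Γ), g ∉ j.range → extj j χ g = 0 := by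
      intro χ g hg
      unfold extj
      rw [dif_neg (fun h => hg (MonoidHom.mem_range.mpr h))]
    have hzero2 : ∀ (g : Γ), (∀ n : π.ker, j n ≠ g) → ν' g = 0 := by
      intro g hg
      rw [hν'd]
      unfold extj
      rw [dif_neg]
      rintro ⟨n, hn⟩
      exact hg n hn
    have hover : ∀ χ : M → ℂ, Over (extj j χ) ν' ↔ ∑ᶠ n : π.ker, χ n * conj (ν n) ≠ 0 := by
      intro χ
      have hs : ∑ g : Γ, extj j χ g * starRingEnd ℂ (ν' g) = ∑ᶠ n : π.ker, χ n * conj (ν n) := by
        rw [finsum_eq_sum_of_fintype]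
        symm
        apply Fintype.sum_of_injective (fun n : π.ker => j n) (fun x y hxy => hinj2 hxy)
        · intro g hg
          rw [hzero2 g, map_zero, mul_zero]
          intro n hn
          exact hg ⟨n, hn⟩
        · intro n
          rw [k1]
          have hl := l1 ν n
          rw [← hν'd] at hl
          have hl' : ν' (j n) = ν n := hl
          rw [hl']
      unfold Over
      rw [hs]
    have hextinj : ∀ χ χ' : M → ℂ, extj j χ = extj j χ' → χ = χ' := by
      intro χ χ' h
      funext m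
      rw [← k1 χ m, ← k1 χ' m, h]
    have hAb : Ab j.range ν' = (extj j) '' (IrrO π.ker ν) := by
      ext φ
      constructor
      · rintro ⟨hφ1, hφ2⟩
        obtain ⟨χ, hχ, rfl⟩ := k3 φ hφ1
        exact ⟨χ, ⟨hχ, (hover χ).mp hφ2⟩, rfl⟩
      · rintro ⟨χ, ⟨hχ1, hχ2⟩, rfl⟩
        exact ⟨(k2 χ).mp hχ1, (hover χ).mpr hχ2⟩
    have hdeg : ∀ χ : M → ℂ, extj j χ 1 = χ 1 := by
      intro χ
      have h := k1 χ 1
      rwa [map_one] at h
    have hcj : ∀ χ : M → ℂ, cj t (extj j χ) = extj j (fun m => χ (σ m)) := by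
      intro χ
      funext g
      by_cases hg : g ∈ j.range
      · obtain ⟨m, rfl⟩ := hg
        rw [k1]
        change extj j χ (t * j m * t⁻¹) = χ (σ m)
        rw [htj, k1]
      · rw [hzero _ g hg]
        change extj j χ (t * g * t⁻¹) = 0
        apply hzero
        intro h
        apply hg
        have h2 := hAG.nor.conj_mem _ h t⁻¹
        have h3 : t⁻¹ * (t * g * t⁻¹) * t⁻¹⁻¹ = g := by group
        rwa [h3] at h2
    have hfix : ∀ χ : M → ℂ, (fun m => χ (σ m)) = χ ↔ cj t (extj j χ) = extj j χ := by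
      intro χ
      rw [hcj]
      exact ⟨fun h => by rw [h], fun h => hextinj _ _ h⟩
    obtain ⟨i1, i2, i3, i4, i5⟩ := h12 M π.ker ν hν
    have hkk : kk j.range ν' = (IrrO π.ker ν).ncard := by
      rw [kk, hAb, Set.ncard_image_of_injective _ (fun x y h => hextinj x y h)]
    have hdd : dd j.range ν' = ∑ᶠ χ ∈ IrrO π.ker ν, (χ 1).re := by
      rw [dd, hAb, finsum_mem_image (fun x _ y _ h => hextinj x y h)]
      apply finsum_mem_congr rfl
      intro χ _
      rw [hdeg]
    obtain ⟨I, hI⟩ : ∃ I : Set (M → ℂ), I = IrrO π.ker ν := ⟨_, rfl⟩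
    obtain ⟨F, hF⟩ : ∃ F : Set (M → ℂ), F = Fx π.ker ν σ := ⟨_, rfl⟩
    rw [← hI, ← hF]
    rw [← hI] at hkk hdd i3 hAb
    have hFI : F ⊆ I := by
      rw [hF, hI]
      intro χ hχ
      exact hχ.1
    have hFmem : ∀ χ, χ ∈ F ↔ χ ∈ I ∧ (fun m => χ (σ m)) = χ := by
      intro χ; rw [hF, hI]; exact Iff.rfl
    have hFfin : F.Finite := i3.subset hFI
    have hRfin : (I \ F).Finite := i3.subset Set.sdiff_subset
    have hncard : (I \ F).ncard + F.ncard = I.ncard := Set.ncard_sdiff_add_ncard_of_subset hFI i3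
    have hsum : ∑ᶠ χ ∈ F, (χ 1).re + ∑ᶠ χ ∈ I \ F, (χ 1).re = ∑ᶠ χ ∈ I, (χ 1).re := by
      rw [← finsum_mem_union Set.disjoint_sdiff_right hFfin hRfin, Set.union_sdiff_cancel hFI]
    have hu : (Nat.card A : ℝ) ^ (1 / e0) = 26 / 7 := by
      rw [hcardA]; exact_mod_cast hNE2
    rw [hu, hidx2]
    have hmemAb : ∀ χ ∈ I, extj j χ ∈ Ab j.range ν' := by
      intro χ hχ; rw [hAb]; exact ⟨χ, hχ, rfl⟩
    rcases h7 Γ (π.ker.map j) j.range δ0.ker (f.comp δ0) hAE ν' hν' with
      ⟨μ, hμ, hμ1, hμo, hμi⟩ | ⟨hk, hd, hall⟩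
    · -- the linear character extends
      obtain ⟨hk, hd⟩ := h8 Γ _ _ _ _ hAE ν' hν' μ hμ hμ1 hμo
      obtain ⟨m1, m2, m3⟩ := h11 Γ _ _ _ _ hAE ν' hν' μ hμ hμ1 hμo
      obtain ⟨b4, b5, c3, c3', hT⟩ := h10
      have hc3 : c3 ∈ IrrS A5 := (hT.all c3).mpr (by tauto)
      have hc3' : c3' ∈ IrrS A5 := (hT.all c3').mpr (by tauto)
      have hta : f.comp δ0 t ∉ A5 := by
        rw [MonoidHom.comp_apply, hδt]
        exact ha
      obtain ⟨o1, o2⟩ := hT.odd _ hta
      have hcjb : ∀ β : Equiv.Perm (Fin 5) → ℂ, cj t (fun g => μ g * β (f.comp δ0 g)) =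
          fun g => μ g * (cj (f.comp δ0 t) β) (f.comp δ0 g) := by
        intro β
        funext g
        have e1 := congrFun (hμi t) g
        simp only [cj] at e1 ⊢
        rw [e1, map_mul, map_mul, map_inv]
      have hget : ∀ β ∈ IrrS A5, ∃ χ ∈ I, extj j χ = fun g => μ g * β (f.comp δ0 g) := by
        intro β hβ
        have h := m1 β hβ
        rw [hAb] at h
        exact h
      obtain ⟨χ3, hχ3, e3⟩ := hget c3 hc3
      obtain ⟨χ3', hχ3', e3'⟩ := hget c3' hc3'
      have hne : χ3 ≠ χ3' := by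
        intro h
        apply hT.ne
        apply m3 c3 hc3 c3' hc3'
        intro g
        have := e3.symm.trans ((congrArg (extj j) h).trans e3')
        exact congrFun this g
      have hR : I \ F = {χ3, χ3'} := by
        ext χ
        rw [Set.mem_sdiff, hFmem, Set.mem_insert_iff, Set.mem_singleton_iff]
        constructor
        · rintro ⟨hχI, hχn⟩
          have hχn' : ¬ (cj t (extj j χ) = extj j χ) := fun h => hχn ⟨hχI, (hfix χ).mpr h⟩
          obtain ⟨β, hβ, eβ⟩ := m2 _ (hmemAb χ hχI)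
          rcases (hT.all β).mp hβ with h | h | h | h | h
          · exfalso; apply hχn'
            rw [eβ, hcjb, h, ch5_cls1]
          · exfalso; apply hχn'
            rw [eβ, hcjb, h, ch5_cls b4 hT.h4]
          · exfalso; apply hχn'
            rw [eβ, hcjb, h, ch5_cls b5 hT.h5]
          · left
            apply hextinj
            rw [eβ, e3, h]
          · right
            apply hextinj
            rw [eβ, e3', h]
        · rintro (rfl | rfl)
          · refine ⟨hχ3, fun h => hne ?_⟩
            have h' := (hfix χ).mp h.2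
            rw [e3, hcjb, o1] at h'
            apply hextinj
            rw [e3, e3', h']
          · refine ⟨hχ3', fun h => hne ?_⟩
            have h' := (hfix χ).mp h.2
            rw [e3', hcjb, o2] at h'
            apply hextinj
            rw [e3, e3', h']
      have hRc : (I \ F).ncard = 2 := by rw [hR]; exact Set.ncard_pair hne
      have d3 : (χ3 1).re = 3 := by
        rw [← hdeg χ3, e3]
        simp only [map_one]
        rw [hμ1, hT.d3]; norm_num
      have d3' : (χ3' 1).re = 3 := by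
        rw [← hdeg χ3', e3']
        simp only [map_one]
        rw [hμ1, hT.d3']; norm_num
      have hRs : ∑ᶠ χ ∈ I \ F, (χ 1).re = 6 := by
        rw [hR, finsum_mem_pair hne, d3, d3']; norm_num
      rw [hkk] at hk
      rw [hdd] at hd
      have hFc : F.ncard = 3 := by omega
      have hFs : ∑ᶠ χ ∈ F, (χ 1).re = 10 := by linarith
      rw [hRc, hRs, hFc, hFs]
      constructor <;> norm_num
    · -- the linear character does not extend
      have hF4 : ∀ χ ∈ F, (4 : ℝ) ≤ (χ 1).re := by
        intro χ hχ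
        rw [hFmem] at hχ
        rcases hall _ (hmemAb χ hχ.1) with h | h
        · exfalso
          obtain ⟨g, hg⟩ := h9 Γ _ _ _ _ hAE hsurj2 ν' hν' _ (hmemAb χ hχ.1) h
          apply hg
          obtain ⟨m, n, rfl⟩ := hgen g
          have hct : cj t (extj j χ) = extj j χ := (hfix χ).mp hχ.2
          have hcn : ∀ n : ℕ, cj (t ^ n) (extj j χ) = extj j χ := by
            intro n
            induction n with
            | zero => funext g; simp [cj]
            | succ n ih =>
              have e : cj (t ^ (n + 1)) (extj j χ) = cj t (cj (t ^ n) (extj j χ)) := by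
                funext g
                simp only [cj]
                congr 1
                rw [pow_succ]; group
              rw [e, ih, hct]
          have hcm : cj (j m) (extj j χ) = extj j χ := by
            obtain ⟨-, hcl, -⟩ := FI.Lib.lS1 Γ j.range (extj j χ) (hmemAb χ hχ.1).1
            funext g
            exact hcl (j m) ⟨m, rfl⟩ g
          have e : cj (j m * t ^ n) (extj j χ) = cj (t ^ n) (cj (j m) (extj j χ)) := by
            funext g
            simp only [cj]
            congr 1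
            group
          rw [e, hcm, hcn]
        · rwa [hdeg] at h
      have hR2 : ∀ χ ∈ I \ F, (2 : ℝ) ≤ (χ 1).re := by
        intro χ hχ
        rcases hall _ (hmemAb χ hχ.1) with h | h
        · rw [hdeg] at h
          rw [h]; norm_num
        · rw [hdeg] at h
          linarith
      have s1 := ch5_lb F hFfin (fun χ => (χ 1).re) 4 hF4
      have s2 := ch5_lb (I \ F) hRfin (fun χ => (χ 1).re) 2 hR2
      have c1 : (0 : ℝ) ≤ F.ncard := Nat.cast_nonneg _
      have c2 : (0 : ℝ) ≤ (I \ F).ncard := Nat.cast_nonneg _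
      push_cast
      constructor <;> nlinarith

end Pool.Agent.H7.FIB
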