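import Pool.Agent.H6.FIB.TargetsG

/-!
# The Borel subgroup of `PGL(2, q)` (row UBF of fib_modules)
-/

set_option autoImplicit false

open scoped Classical ComplexConjugate

namespace Pool.Agent.H7.FIB

open FI

section gl

variable {F : Type} [Field F]

abbrev G2 (F : Type) [Field F] : Type := Matrix.GeneralLinearGroup (Fin 2) F

theorem mul00 (g h : G2 F) : (g * h) 0 0 = g 0 0 * h 0 0 + g 0 1 * h 1 0 := by
  simp [Matrix.mul_apply, Fin.sum_univ_two]

theorem mul01 (g h : G2 F) : (g * h) 0 1 = g 0 0 * h 0 1 + g 0 1 * h 1 1 := by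
  simp [Matrix.mul_apply, Fin.sum_univ_two]

theorem mul10 (g h : G2 F) : (g * h) 1 0 = g 1 0 * h 0 0 + g 1 1 * h 1 0 := by
  simp [Matrix.mul_apply, Fin.sum_univ_two]

theorem mul11 (g h : G2 F) : (g * h) 1 1 = g 1 0 * h 0 1 + g 1 1 * h 1 1 := by
  simp [Matrix.mul_apply, Fin.sum_univ_two]

theorem ext4 {g h : G2 F} (h00 : g 0 0 = h 0 0) (h01 : g 0 1 = h 0 1) (h10 : g 1 0 = h 1 0)
    (h11 : g 1 1 = h 1 1) : g = h := by
  apply Matrix.GeneralLinearGroup.ext
  intro i j
  fin_cases i <;> fin_cases j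
  · exact h00
  · exact h01
  · exact h10
  · exact h11

/-- a matrix given by its entries -/
noncomputable def mm (a b c d : F) (h : a * d - b * c ≠ 0) : G2 F :=
  Matrix.GeneralLinearGroup.mkOfDetNeZero !![a, b; c, d] (by rw [Matrix.det_fin_two_of]; exact h)

theorem mm00 (a b c d : F) (h : a * d - b * c ≠ 0) : (mm a b c d h) 0 0 = a := rfl
theorem mm01 (a b c d : F) (h : a * d - b * c ≠ 0) : (mm a b c d h) 0 1 = b := rfl
theorem mm10 (a b c d : F) (h : a * d - b * c ≠ 0) : (mm a b c d h) 1 0 = c := rfl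
theorem mm11 (a b c d : F) (h : a * d - b * c ≠ 0) : (mm a b c d h) 1 1 = d := rfl

theorem det_ne (g : G2 F) : g 0 0 * g 1 1 - g 0 1 * g 1 0 ≠ 0 := by
  have h := (Matrix.GeneralLinearGroup.det g).ne_zero
  rw [Matrix.GeneralLinearGroup.val_det_apply, Matrix.det_fin_two] at h
  exact h

theorem mem_center2 (g : G2 F) :
    g ∈ Subgroup.center (G2 F) ↔ g 0 1 = 0 ∧ g 1 0 = 0 ∧ g 0 0 = g 1 1 := by
  rw [Matrix.GeneralLinearGroup.mem_center_iff_val_mem_range_scalar]
  constructor
  · rintro ⟨c, hc⟩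
    have e : ∀ i j, g i j = (Matrix.scalar (Fin 2) c) i j := fun i j => by rw [hc]
    refine ⟨?_, ?_, ?_⟩
    · rw [e]; simp
    · rw [e]; simp
    · rw [e, e]; simp
  · rintro ⟨h1, h2, h3⟩
    refine ⟨g 0 0, ?_⟩
    ext i j
    fin_cases i <;> fin_cases j
    · simp
    · simpa using h1.symm
    · simpa using h2.symm
    · simpa using h3

/-- upper triangular matrices -/
def Bt (F : Type) [Field F] : Subgroup (G2 F) where
  carrier := {g | g 1 0 = 0}
  one_mem' := by
    change (1 : G2 F) 1 0 = 0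
    simp
  mul_mem' := by
    intro a b ha hb
    change (a * b) 1 0 = 0
    have ha' : a 1 0 = 0 := ha
    have hb' : b 1 0 = 0 := hb
    rw [mul10, ha', hb']; ring
  inv_mem' := by
    intro a ha
    change (a⁻¹ : G2 F) 1 0 = 0
    have ha' : a 1 0 = 0 := ha
    have h1 : (a * a⁻¹ : G2 F) 1 0 = 0 := by rw [mul_inv_cancel]; simp
    rw [mul10, ha'] at h1
    have h2 := det_ne a
    rw [ha'] at h2
    have h3 : a 1 1 ≠ 0 := by
      intro h; rw [h] at h2; apply h2; ring
    have h4 : a 1 1 * (a⁻¹ : G2 F) 1 0 = 0 := by linear_combination h1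
    exact (mul_eq_zero.mp h4).resolve_left h3

theorem mem_Bt (g : G2 F) : g ∈ Bt F ↔ g 1 0 = 0 := Iff.rfl

/-- upper triangular matrices with equal entries on the diagonal -/
def Ut (F : Type) [Field F] : Subgroup (G2 F) where
  carrier := {g | g 1 0 = 0 ∧ g 0 0 = g 1 1}
  one_mem' := by
    change (1 : G2 F) 1 0 = 0 ∧ (1 : G2 F) 0 0 = (1 : G2 F) 1 1
    simp
  mul_mem' := by
    intro a b ha hb
    change (a * b) 1 0 = 0 ∧ (a * b) 0 0 = (a * b) 1 1
    obtain ⟨ha1, ha2⟩ : a 1 0 = 0 ∧ a 0 0 = a 1 1 := ha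
    obtain ⟨hb1, hb2⟩ : b 1 0 = 0 ∧ b 0 0 = b 1 1 := hb
    rw [mul10, mul00, mul11, ha1, hb1, ha2, hb2]
    constructor <;> ring
  inv_mem' := by
    intro a ha
    change (a⁻¹ : G2 F) 1 0 = 0 ∧ (a⁻¹ : G2 F) 0 0 = (a⁻¹ : G2 F) 1 1
    obtain ⟨ha1, ha2⟩ : a 1 0 = 0 ∧ a 0 0 = a 1 1 := ha
    have hb : (a⁻¹ : G2 F) 1 0 = 0 := (Bt F).inv_mem (show a ∈ Bt F from ha1)
    refine ⟨hb, ?_⟩
    have h0 : (a * a⁻¹ : G2 F) 0 0 = 1 := by rw [mul_inv_cancel]; simp
    have h1 : (a * a⁻¹ : G2 F) 1 1 = 1 := by rw [mul_inv_cancel]; simp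
    rw [mul00, hb] at h0
    rw [mul11, ha1] at h1
    have h2 := det_ne a
    rw [ha1] at h2
    have h3 : a 1 1 ≠ 0 := by
      intro h; rw [h] at h2; apply h2; ring
    apply mul_left_cancel₀ h3
    rw [ha2] at h0
    linear_combination h0 - h1

theorem mem_Ut (g : G2 F) : g ∈ Ut F ↔ g 1 0 = 0 ∧ g 0 0 = g 1 1 := Iff.rfl

theorem center_le_Ut : Subgroup.center (G2 F) ≤ Ut F := by
  intro z hz
  rw [mem_center2] at hz
  exact ⟨hz.2.1, hz.2.2⟩

theorem Ut_le_Bt : Ut F ≤ Bt F := fun _ h => h.1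

theorem Bt_ne (g : G2 F) (h : g ∈ Bt F) : g 0 0 ≠ 0 ∧ g 1 1 ≠ 0 := by
  have h2 := det_ne g
  have h' : g 1 0 = 0 := h
  rw [h'] at h2
  constructor
  · intro h; rw [h] at h2; apply h2; ring
  · intro h; rw [h] at h2; apply h2; ring

/-- upper transvections -/
noncomputable def up (x : F) : G2 F := mm 1 x 0 1 (by simp)

/-- lower transvections -/
noncomputable def lo (x : F) : G2 F := mm 1 0 x 1 (by simp)

/-- the class of a matrix -/
noncomputable def pi (F : Type) [Field F] : G2 F →* G2 F ⧸ Subgroup.center (G2 F) :=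
  QuotientGroup.mk' _

theorem pi_surj : Function.Surjective (pi F) := QuotientGroup.mk'_surjective _

theorem pi_ker : (pi F).ker = Subgroup.center (G2 F) := QuotientGroup.ker_mk' _

theorem mem_map_pi {H : Subgroup (G2 F)} (hH : Subgroup.center (G2 F) ≤ H) (g : G2 F) :
    pi F g ∈ H.map (pi F) ↔ g ∈ H := by
  have h : (H.map (pi F)).comap (pi F) = H := Subgroup.comap_map_eq_self (by rw [pi_ker]; exact hH)
  rw [← Subgroup.mem_comap, h]

theorem pi_eq (g h : G2 F) : pi F g = pi F h ↔
    ∃ c : F, c ≠ 0 ∧ ∀ i j, h i j = c * g i j := by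
  constructor
  · intro e
    have h1 : g⁻¹ * h ∈ Subgroup.center (G2 F) := QuotientGroup.eq.mp e
    have h2 := (mem_center2 _).mp h1
    obtain ⟨z, hz⟩ : ∃ z : G2 F, z = g⁻¹ * h := ⟨_, rfl⟩
    rw [← hz] at h2
    have h3 : h = g * z := by rw [hz]; group
    obtain ⟨z1, z2, z3⟩ := h2
    refine ⟨z 0 0, ?_, ?_⟩
    · intro h0
      have h4 := det_ne z
      rw [h0, z1] at h4
      apply h4; ring
    · intro i j
      rw [h3]
      fin_cases i <;> fin_cases j
      · change (g * z) 0 0 = z 0 0 * g 0 0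
        rw [mul00, z2]; ring
      · change (g * z) 0 1 = z 0 0 * g 0 1
        rw [mul01, z1, ← z3]; ring
      · change (g * z) 1 0 = z 0 0 * g 1 0
        rw [mul10, z2]; ring
      · change (g * z) 1 1 = z 0 0 * g 1 1
        rw [mul11, z1, ← z3]; ring
  · rintro ⟨c, hc, e⟩
    have hz : mm c 0 0 c (by simpa using hc) ∈ Subgroup.center (G2 F) := by
      rw [mem_center2, mm01, mm10, mm00, mm11]
      exact ⟨rfl, rfl, rfl⟩
    have h1 : h = g * mm c 0 0 c (by simpa using hc) := by
      apply ext4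
      · rw [mul00, mm00, mm10, e]; ring
      · rw [mul01, mm01, mm11, e]; ring
      · rw [mul10, mm00, mm10, e]; ring
      · rw [mul11, mm01, mm11, e]; ring
    have h2 : pi F (mm c 0 0 c (by simpa using hc)) = 1 := by
      rw [← MonoidHom.mem_ker, pi_ker]; exact hz
    rw [h1, map_mul, h2, mul_one]

/-- subgroups containing the transvections contain the special linear group -/
theorem sl_le (T : Subgroup (G2 F)) (hu : ∀ x, up x ∈ T) (hl : ∀ x, lo x ∈ T)
    (g : G2 F) (hg : g 0 0 * g 1 1 - g 0 1 * g 1 0 = 1) : g ∈ T := by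
  have key : ∀ g : G2 F, g 0 0 * g 1 1 - g 0 1 * g 1 0 = 1 → g 1 0 ≠ 0 → g ∈ T := by
    intro g hg hc
    have e : g = up ((g 0 0 - 1) / g 1 0) * lo (g 1 0) * up ((g 1 1 - 1) / g 1 0) := by
      apply ext4
      · simp only [mul00, mul01, mul10, mul11, up, lo, mm00, mm01, mm10, mm11]
        field_simp; ring
      · simp only [mul00, mul01, mul10, mul11, up, lo, mm00, mm01, mm10, mm11]
        field_simp
        linear_combination -hg
      · simp only [mul00, mul01, mul10, mul11, up, lo, mm00, mm01, mm10, mm11]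
        ring
      · simp only [mul00, mul01, mul10, mul11, up, lo, mm00, mm01, mm10, mm11]
        field_simp; ring
    rw [e]
    exact T.mul_mem (T.mul_mem (hu _) (hl _)) (hu _)
  by_cases hc : g 1 0 = 0
  · have h11 : g 1 1 ≠ 0 := by
      intro h; rw [hc, h] at hg; apply one_ne_zero (α := F); rw [← hg]; ring
    have h1 : g * lo 1 ∈ T := by
      apply key
      · simp only [mul00, mul01, mul10, mul11, lo, mm00, mm01, mm10, mm11]
        linear_combination hg
      · simp only [mul10, lo, mm00, mm10]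
        rw [hc]; simpa using h11
    have h2 := T.mul_mem h1 (T.inv_mem (hl 1))
    rwa [mul_inv_cancel_right] at h2
  · exact key g hg hc

end gl

section main

variable (q : ℕ) [Fact q.Prime]

theorem PS_mem_iff (x : PG q) : x ∈ PS q ↔
    ∃ g : G2 (ZMod q), g 0 0 * g 1 1 - g 0 1 * g 1 0 = 1 ∧ pi (ZMod q) g = x := by
  unfold PS
  rw [Subgroup.mem_map]
  constructor
  · rintro ⟨g, ⟨s, rfl⟩, rfl⟩
    refine ⟨Matrix.SpecialLinearGroup.toGL s, ?_, rfl⟩
    have h := s.det_coe
    rw [Matrix.det_fin_two] at h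
    exact h
  · rintro ⟨g, hg, rfl⟩
    refine ⟨g, ?_, rfl⟩
    refine ⟨⟨(g : Matrix (Fin 2) (Fin 2) (ZMod q)), ?_⟩, ?_⟩
    · rw [Matrix.det_fin_two]; exact hg
    · apply Matrix.GeneralLinearGroup.ext
      intro i j
      rfl

theorem pf_UBF (h1 : T_CRD) : T_UBF := by
  intro q hq hq7
  obtain ⟨hfin, hcard, hidx, hnor⟩ := h1 q hq hq7
  have hF : Fact q.Prime := ⟨hq⟩
  have hNZ : NeZero q := ⟨hq.ne_zero⟩
  obtain ⟨B, hB⟩ : ∃ B : Subgroup (PG q), B = (Bt (ZMod q)).map (pi (ZMod q)) := ⟨_, rfl⟩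
  obtain ⟨U, hU⟩ : ∃ U : Subgroup (PG q), U = (Ut (ZMod q)).map (pi (ZMod q)) := ⟨_, rfl⟩
  have memB : ∀ g : G2 (ZMod q), pi (ZMod q) g ∈ B ↔ g 1 0 = 0 := by
    intro g; rw [hB, mem_map_pi (center_le_Ut.trans Ut_le_Bt), mem_Bt]
  have memU : ∀ g : G2 (ZMod q), pi (ZMod q) g ∈ U ↔ g 1 0 = 0 ∧ g 0 0 = g 1 1 := by
    intro g; rw [hU, mem_map_pi center_le_Ut, mem_Ut]
  have hsurj : ∀ x : PG q, ∃ g : G2 (ZMod q), pi (ZMod q) g = x := fun x => pi_surj x
  -- `U ≤ PS q`
  have US : U ≤ PS q := by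
    intro x hx
    obtain ⟨g, rfl⟩ := hsurj x
    rw [memU] at hx
    obtain ⟨h10, h01⟩ := hx
    have hne := Bt_ne g h10
    rw [PS_mem_iff]
    refine ⟨up (g 0 1 / g 1 1), ?_, ?_⟩
    · simp only [up, mm00, mm01, mm10, mm11]; ring
    · rw [pi_eq]
      refine ⟨g 1 1, hne.2, ?_⟩
      intro i j
      fin_cases i <;> fin_cases j
      · change g 0 0 = g 1 1 * (up (g 0 1 / g 1 1)) 0 0
        rw [up, mm00, h01]; ring
      · change g 0 1 = g 1 1 * (up (g 0 1 / g 1 1)) 0 1
        rw [up, mm01]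
        have := hne.2
        field_simp
      · change g 1 0 = g 1 1 * (up (g 0 1 / g 1 1)) 1 0
        rw [up, mm10, h10]; ring
      · change g 1 1 = g 1 1 * (up (g 0 1 / g 1 1)) 1 1
        rw [up, mm11]; ring
  have UB : U ≤ B := by rw [hU, hB]; exact Subgroup.map_mono Ut_le_Bt
  -- `B` is not contained in `PS q`
  have two : ∃ b ∈ B, b ∉ PS q := by
    have hrc : ringChar (ZMod q) ≠ 2 := by
      rw [ZMod.ringChar_zmod_n]; omega
    obtain ⟨a, ha⟩ := FiniteField.exists_nonsquare hrc
    have ha0 : a ≠ 0 := by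
      rintro rfl; exact ha ⟨0, by ring⟩
    refine ⟨pi (ZMod q) (mm a 0 0 1 (by simpa using ha0)), ?_, ?_⟩
    · rw [memB, mm10]
    · rw [PS_mem_iff]
      rintro ⟨g, hg, e⟩
      rw [pi_eq] at e
      obtain ⟨c, hc, e⟩ := e
      apply ha
      refine ⟨c, ?_⟩
      have e00 := e 0 0
      have e01 := e 0 1
      have e10 := e 1 0
      have e11 := e 1 1
      rw [mm00] at e00
      rw [mm01] at e01
      rw [mm10] at e10
      rw [mm11] at e11
      have : a * 1 = c * c * (g 0 0 * g 1 1 - g 0 1 * g 1 0) := by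
        calc a * 1 = (c * g 0 0) * (c * g 1 1) - (c * g 0 1) * (c * g 1 0) := by
              rw [← e00, ← e11, ← e01, ← e10]; ring
          _ = _ := by ring
      rw [hg, mul_one, mul_one] at this
      exact this
  -- cardinalities
  have crU : Nat.card U = q := by
    have hin : ∀ x : ZMod q, pi (ZMod q) (up x) ∈ U := by
      intro x; rw [memU]; exact ⟨rfl, rfl⟩
    have hbij : Function.Bijective (fun x : ZMod q => (⟨pi (ZMod q) (up x), hin x⟩ : U)) := by
      constructor
      · intro x y hxy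
        have h2 : pi (ZMod q) (up x) = pi (ZMod q) (up y) := congrArg Subtype.val hxy
        rw [pi_eq] at h2
        obtain ⟨c, hc, e⟩ := h2
        have e00 := e 0 0
        have e01 := e 0 1
        simp only [up, mm00, mm01] at e00 e01
        rw [mul_one] at e00
        rw [← e00] at e01
        rw [e01]; ring
      · rintro ⟨x, hx⟩
        obtain ⟨g, rfl⟩ := hsurj x
        rw [memU] at hx
        have hne := Bt_ne g hx.1
        refine ⟨g 0 1 / g 1 1, ?_⟩
        apply Subtype.ext
        change pi (ZMod q) (up (g 0 1 / g 1 1)) = pi (ZMod q) g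
        rw [pi_eq]
        refine ⟨g 1 1, hne.2, ?_⟩
        intro i j
        fin_cases i <;> fin_cases j
        · change g 0 0 = g 1 1 * (up (g 0 1 / g 1 1)) 0 0
          rw [up, mm00, hx.2]; ring
        · change g 0 1 = g 1 1 * (up (g 0 1 / g 1 1)) 0 1
          rw [up, mm01]
          have := hne.2
          field_simp
        · change g 1 0 = g 1 1 * (up (g 0 1 / g 1 1)) 1 0
          rw [up, mm10, hx.1]; ring
        · change g 1 1 = g 1 1 * (up (g 0 1 / g 1 1)) 1 1
          rw [up, mm11]; ring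
    rw [← Nat.card_congr (Equiv.ofBijective _ hbij), Nat.card_eq_fintype_card, ZMod.card]
  have crB : Nat.card B = q * (q - 1) := by
    have hin : ∀ y : (ZMod q)ˣ × ZMod q,
        pi (ZMod q) (mm (y.1 : ZMod q) y.2 0 1 (by simp)) ∈ B := by
      intro y; rw [memB, mm10]
    have hbij : Function.Bijective (fun y : (ZMod q)ˣ × ZMod q =>
        (⟨pi (ZMod q) (mm (y.1 : ZMod q) y.2 0 1 (by simp)), hin y⟩ : B)) := by
      constructor
      · rintro ⟨a, x⟩ ⟨b, y⟩ hxy
        have h2 : pi (ZMod q) (mm (a : ZMod q) x 0 1 (by simp)) =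
          pi (ZMod q) (mm (b : ZMod q) y 0 1 (by simp)) := congrArg Subtype.val hxy
        rw [pi_eq] at h2
        obtain ⟨c, hc, e⟩ := h2
        have e00 := e 0 0
        have e01 := e 0 1
        have e11 := e 1 1
        simp only [mm00, mm01, mm11] at e00 e01 e11
        rw [mul_one] at e11
        rw [← e11, one_mul] at e00 e01
        apply Prod.ext
        · exact Units.ext e00.symm
        · exact e01.symm
      · rintro ⟨x, hx⟩
        obtain ⟨g, rfl⟩ := hsurj x
        rw [memB] at hx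
        have hne := Bt_ne g hx
        refine ⟨⟨Units.mk0 (g 0 0 / g 1 1) (div_ne_zero hne.1 hne.2), g 0 1 / g 1 1⟩, ?_⟩
        apply Subtype.ext
        change pi (ZMod q) (mm (g 0 0 / g 1 1) (g 0 1 / g 1 1) 0 1 _) = pi (ZMod q) g
        rw [pi_eq]
        refine ⟨g 1 1, hne.2, ?_⟩
        have := hne.2
        intro i j
        fin_cases i <;> fin_cases j
        · change g 0 0 = g 1 1 * (g 0 0 / g 1 1)
          field_simp
        · change g 0 1 = g 1 1 * (g 0 1 / g 1 1)
          field_simp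
        · change g 1 0 = g 1 1 * 0
          rw [hx]; ring
        · change g 1 1 = g 1 1 * 1
          ring
    rw [← Nat.card_congr (Equiv.ofBijective _ hbij), Nat.card_prod, Nat.card_eq_fintype_card,
      Nat.card_eq_fintype_card, ZMod.card, ZMod.card_units, mul_comm]
  have crS : 2 * Nat.card (B ⊓ PS q : Subgroup (PG q)) = q * (q - 1) := by
    have h2 : (PS q).relIndex B ∣ 2 := by
      have h0 := Subgroup.relIndex_dvd_index_of_normal (PS q) B
      rw [hidx] at h0
      exact h0
    have h3 : (PS q).relIndex B ≠ 1 := by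
      rw [Ne, Subgroup.relIndex_eq_one]
      obtain ⟨b, hb, hb'⟩ := two
      exact fun h => hb' (h hb)
    have h4 : (PS q).relIndex B = 2 := by
      rcases (Nat.dvd_prime Nat.prime_two).mp h2 with h | h
      · exact absurd h h3
      · exact h
    have h5 : Nat.card ((PS q).subgroupOf B) * (PS q).relIndex B = Nat.card B :=
      Subgroup.card_mul_index _
    have h6 : Nat.card ((PS q).subgroupOf B) = Nat.card (B ⊓ PS q : Subgroup (PG q)) := by
      rw [inf_comm, ← Subgroup.inf_subgroupOf_right]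
      exact Nat.card_congr (Subgroup.subgroupOfEquivOfLe inf_le_right).toEquiv
    rw [h4, h6, crB] at h5
    rw [mul_comm]; exact h5
  refine ⟨U, B, ⟨US, UB, ?_, crU, crB, crS, ?_, ?_, two, ?_, ?_⟩⟩
  · -- nor
    intro b hb u hu
    obtain ⟨g, rfl⟩ := hsurj b
    obtain ⟨h, rfl⟩ := hsurj u
    rw [memB] at hb
    rw [memU] at hu
    rw [← map_mul, ← map_inv, ← map_mul]
    obtain ⟨K, hK⟩ : ∃ K : G2 (ZMod q), K = g * h * g⁻¹ := ⟨_, rfl⟩
    rw [← hK, memU]
    have hKg : K * g = g * h := by rw [hK]; group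
    have hKB : K ∈ Bt (ZMod q) := by
      rw [hK]
      exact (Bt (ZMod q)).mul_mem ((Bt (ZMod q)).mul_mem hb hu.1) ((Bt (ZMod q)).inv_mem hb)
    have hK10 : K 1 0 = 0 := hKB
    refine ⟨hK10, ?_⟩
    have hne := Bt_ne g hb
    have e00 : (K * g) 0 0 = (g * h) 0 0 := by rw [hKg]
    have e11 : (K * g) 1 1 = (g * h) 1 1 := by rw [hKg]
    rw [mul00, mul00, hb, hu.1] at e00
    rw [mul11, mul11, hb, hK10] at e11
    have f00 : K 0 0 = h 0 0 := by
      apply mul_right_cancel₀ hne.1
      linear_combination e00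
    have f11 : K 1 1 = h 1 1 := by
      apply mul_right_cancel₀ hne.2
      linear_combination e11
    rw [f00, f11, hu.2]
  · -- ti
    intro a ha u hu hau
    obtain ⟨g, rfl⟩ := hsurj a
    obtain ⟨h, rfl⟩ := hsurj u
    rw [memB] at ha
    rw [memU] at hu
    rw [← map_mul, ← map_inv, ← map_mul] at hau
    obtain ⟨K, hK⟩ : ∃ K : G2 (ZMod q), K = g * h * g⁻¹ := ⟨_, rfl⟩
    rw [← hK, memU] at hau
    have hKg : K * g = g * h := by rw [hK]; group
    have e10 : (K * g) 1 0 = (g * h) 1 0 := by rw [hKg]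
    have e11 : (K * g) 1 1 = (g * h) 1 1 := by rw [hKg]
    rw [mul10, mul10, hau.1, hu.1] at e10
    rw [mul11, mul11, hau.1] at e11
    have f11 : K 1 1 = h 0 0 := by
      apply mul_right_cancel₀ ha
      linear_combination e10
    have f01 : h 0 1 = 0 := by
      have : g 1 0 * h 0 1 = 0 := by
        rw [f11, hu.2] at e11
        linear_combination -e11
      exact (mul_eq_zero.mp this).resolve_left ha
    have hc : h ∈ Subgroup.center (G2 (ZMod q)) := by
      rw [mem_center2]; exact ⟨f01, hu.1, hu.2⟩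
    rw [← pi_ker, MonoidHom.mem_ker] at hc
    exact hc
  · -- reg
    intro b hb u hu hu1 hbu
    obtain ⟨g, rfl⟩ := hsurj b
    obtain ⟨h, rfl⟩ := hsurj u
    rw [memB] at hb
    rw [memU] at hu
    have h01 : h 0 1 ≠ 0 := by
      intro h0
      apply hu1
      have hc : h ∈ Subgroup.center (G2 (ZMod q)) := by
        rw [mem_center2]; exact ⟨h0, hu.1, hu.2⟩
      rw [← pi_ker, MonoidHom.mem_ker] at hc
      exact hc
    rw [← map_mul, ← map_mul, pi_eq] at hbu
    obtain ⟨c, hc, e⟩ := hbu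
    have e00 := e 0 0
    have e01 := e 0 1
    rw [mul00, mul00, hb, hu.1] at e00
    rw [mul01, mul01] at e01
    have hne := Bt_ne g hb
    have hne' := Bt_ne h hu.1
    have c1 : c = 1 := by
      have h3 : h 0 0 * g 0 0 ≠ 0 := mul_ne_zero hne'.1 hne.1
      apply mul_right_cancel₀ h3
      linear_combination -e00
    rw [c1] at e01
    rw [memU]
    refine ⟨hb, ?_⟩
    apply mul_right_cancel₀ h01
    rw [hu.2] at e01
    linear_combination -e01
  · -- sol
    have hsolB : Group.IsSolvable (Bt (ZMod q)) := by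
      obtain ⟨f, hf⟩ : ∃ f : Multiplicative (ZMod q) →* Bt (ZMod q),
          ∀ x, (f x : G2 (ZMod q)) = up (Multiplicative.toAdd x) := by
        refine ⟨{ toFun := fun x => ⟨up (Multiplicative.toAdd x), rfl⟩,
                  map_one' := ?_, map_mul' := ?_ }, fun x => rfl⟩
        · apply Subtype.ext
          apply ext4
          · simp [up, mm00]
          · simp [up, mm01]
          · simp [up, mm10]
          · simp [up, mm11]
        · intro x y
          apply Subtype.ext
          apply ext4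
          · change _ = (up (Multiplicative.toAdd x) * up (Multiplicative.toAdd y) : G2 (ZMod q)) 0 0
            rw [mul00]; simp [up, mm00, mm01, mm10]
          · change _ = (up (Multiplicative.toAdd x) * up (Multiplicative.toAdd y) : G2 (ZMod q)) 0 1
            rw [mul01]; simp [up, mm00, mm01, mm11]; ring
          · change _ = (up (Multiplicative.toAdd x) * up (Multiplicative.toAdd y) : G2 (ZMod q)) 1 0
            rw [mul10]; simp [up, mm00, mm10, mm11]
          · change _ = (up (Multiplicative.toAdd x) * up (Multiplicative.toAdd y) : G2 (ZMod q)) 1 1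
            rw [mul11]; simp [up, mm01, mm10, mm11]
      obtain ⟨φ, hφ⟩ : ∃ φ : Bt (ZMod q) →* (ZMod q)ˣ × (ZMod q)ˣ,
          ∀ g : Bt (ZMod q), ((φ g).1 : ZMod q) = (g : G2 (ZMod q)) 0 0 ∧
            ((φ g).2 : ZMod q) = (g : G2 (ZMod q)) 1 1 := by
        refine ⟨{ toFun := fun g => (Units.mk0 ((g : G2 (ZMod q)) 0 0) (Bt_ne _ g.2).1,
                    Units.mk0 ((g : G2 (ZMod q)) 1 1) (Bt_ne _ g.2).2),
                  map_one' := ?_, map_mul' := ?_ }, fun g => ⟨rfl, rfl⟩⟩
        · apply Prod.ext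
          · apply Units.ext; simp
          · apply Units.ext; simp
        · rintro ⟨g, hg⟩ ⟨h, hh⟩
          have hg' : g 1 0 = 0 := hg
          have hh' : h 1 0 = 0 := hh
          apply Prod.ext
          · apply Units.ext
            change (g * h) 0 0 = g 0 0 * h 0 0
            rw [mul00, hh']; ring
          · apply Units.ext
            change (g * h) 1 1 = g 1 1 * h 1 1
            rw [mul11, hg']; ring
      apply Group.isSolvable_of_ker_le_range f φ
      intro g hg
      rw [MonoidHom.mem_ker] at hg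
      have h1 := hφ g
      rw [hg] at h1
      obtain ⟨h2, h3⟩ := h1
      refine ⟨Multiplicative.ofAdd ((g : G2 (ZMod q)) 0 1), ?_⟩
      apply Subtype.ext
      rw [hf]
      apply ext4
      · rw [up, mm00]; exact h2
      · rw [up, mm01]; rfl
      · rw [up, mm10]; exact g.2.symm
      · rw [up, mm11]; exact h3
    rw [hB]
    exact Group.isSolvable_of_surjective (f := (pi (ZMod q)).subgroupMap (Bt (ZMod q)))
      ((pi (ZMod q)).subgroupMap_surjective _)
  · -- gen
    intro T a ha hUT haT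
    obtain ⟨g, rfl⟩ := hsurj a
    rw [memB] at ha
    have hu : ∀ x, up x ∈ T.comap (pi (ZMod q)) := by
      intro x
      rw [Subgroup.mem_comap]
      apply hUT
      rw [memU]; exact ⟨rfl, rfl⟩
    have hgu : ∀ x, g * up x * g⁻¹ ∈ T.comap (pi (ZMod q)) := by
      intro x
      rw [Subgroup.mem_comap, map_mul, map_mul, map_inv]
      apply haT
      rw [memU]; exact ⟨rfl, rfl⟩
    have hdet := det_ne g
    have hl : ∀ y, lo y ∈ T.comap (pi (ZMod q)) := by
      intro y
      obtain ⟨D, hD⟩ : ∃ D : ZMod q, D = g 0 0 * g 1 1 - g 0 1 * g 1 0 := ⟨_, rfl⟩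
      have hD0 : D ≠ 0 := by rw [hD]; exact hdet
      obtain ⟨x, hx⟩ : ∃ x : ZMod q, x = -(y * D / g 1 0 ^ 2) := ⟨_, rfl⟩
      obtain ⟨s, hs⟩ : ∃ s : ZMod q, s = g 0 0 / g 1 0 := ⟨_, rfl⟩
      have hs' : s * g 1 0 = g 0 0 := by rw [hs]; field_simp
      have hx' : x * g 1 0 ^ 2 = -(y * D) := by rw [hx]; field_simp
      have e : lo y = up (-s) * (g * up x * g⁻¹) * up s := by
        have e1 : lo y * (up (-s) * g) = up (-s) * g * up x := by
          apply ext4
          · simp only [mul00, mul01, mul10, mul11, up, lo, mm00, mm01, mm10, mm11]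
            ring
          · simp only [mul00, mul01, mul10, mul11, up, lo, mm00, mm01, mm10, mm11]
            linear_combination x * hs'
          · simp only [mul00, mul01, mul10, mul11, up, lo, mm00, mm01, mm10, mm11]
            linear_combination (-y) * hs'
          · simp only [mul00, mul01, mul10, mul11, up, lo, mm00, mm01, mm10, mm11]
            apply mul_right_cancel₀ ha
            rw [hD] at hx'
            linear_combination (-(y * g 1 1)) * hs' - hx'
        have e2 : up (-s) * up s = (1 : G2 (ZMod q)) := by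
          apply ext4
          · simp [mul00, up, mm00, mm01, mm10]
          · simp [mul01, up, mm00, mm01, mm11]
          · simp [mul10, up, mm00, mm10, mm11]
          · simp [mul11, up, mm01, mm10, mm11]
        have e3 : (up (-s))⁻¹ = (up s : G2 (ZMod q)) := inv_eq_of_mul_eq_one_right e2
        have e4 : lo y = up (-s) * g * up x * (up (-s) * g)⁻¹ := by
          rw [← e1, mul_inv_cancel_right]
        rw [e4, mul_inv_rev, e3]
        simp only [mul_assoc]
      rw [e]
      exact Subgroup.mul_mem _ (Subgroup.mul_mem _ (hu _) (hgu _)) (hu _)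
    intro z hz
    rw [PS_mem_iff] at hz
    obtain ⟨k, hk, rfl⟩ := hz
    exact sl_le (T.comap (pi (ZMod q))) hu hl k hk

end main

end Pool.Agent.H7.FIB
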